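import Mathlib
import Pool.Agent.Q74.MG.Fin3
import Pool.Agent.Q74.MG.Col

set_option autoImplicit false

/-!
# Where do the trajectories of the `3x+1` map merge, and where do they enter the cycles?

`T` is the map `x ↦ x/2` (`x` even), `(3x+d)/2` (`x` odd) on the integers, `d` odd and prime to `3`; `d = 1` is the `3x+1`
map.  Trajectories that end in different cycles never merge, and it is an open problem whether there are two positive
integers whose trajectories do not merge.  We study the place where two trajectories merge and the place where a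
trajectory enters its cycle:  `merge d n m` is the first term of the trajectory of `n` which belongs to the trajectory of
`m`, and `entrance d n` is the first periodic term of the trajectory of `n`; both are `0` if there is no such term (`0` is
never reached from an integer which is not `0`).  `H = 0.9499...` is the binary entropy of `log 2 / log 3`.

THE RESULTS.

1. Sparse sets are entered low.  Let `O` be a set of integers with `T(O) ⊆ O` and at most `A X^η` elements in `[-X, X]`,
   for all `X ≥ 1`, where `H < η < 1`, and let `0 < e < 1 - η`.  Then for all `1 ≤ y ≤ N` the proportion of the `n ≤ N`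
   whose trajectory reaches `O` before it has a term `≤ y` is at most `K y^(-e)`; `K` depends on `d, A, η, e` only.
   This applies to the set of the terms of any trajectory, uniformly in the trajectory, and to the set of all periodic
   integers, for all `e < 1 - H = 0.0500...`.
2. One random trajectory: for every `m` the pair (merging point with `m`, entrance point) has a limit law as `n` is
   uniform in `[1, X]`, a probability law (no mass escapes to infinity), with total variation error
   `K (1 + log X)^(-c)`, uniformly in `m`, with an absolute constant `c > 0`.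
3. Two random trajectories: the merging point of `n₁` and `n₂`, uniform in `[1, X₁]` and `[1, X₂]`, has a limit law `l`,
   which is a probability law, with the same error in `min(X₁, X₂)`, whatever the relative size of `X₁` and `X₂` is.
   If `a` is not periodic then `l(a) = 2 δ(2a) δ(b)` if there is an integer `b` with `3b + d = 2a`, and `l(a) = 0` if there
   is none; `δ(x)` is the natural density of the set of the positive integers whose trajectory contains `x`, which exists
   for all integers `x`.  The mass of `(z, ∞)` is at least `1/(K z)`: the mean of the merging point is infinite.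
   For `d = 1`: `l(0) = 0`, that is, two random trajectories merge with probability one, if and only if all trajectories
   of positive integers reach `1`.
4. The power saving in 1 is of the right kind: for all `z ≥ 1` and all large `X₁, X₂` the proportion of the pairs such that
   the trajectory of `n₁` reaches that of `n₂` before it has a term `≤ z` is at least `1/(K z)`; by 1 it is at most
   `K z^(-e)`.
5. `k` random trajectories: the table of the merging points of all pairs and of the entrance points has a limit law, with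
   error `K k² (1 + log N)^(-c)` if all `X_i ≥ N`.

PROOF.  1: A trajectory which starts below `2^k` descends through all the levels `2^i`, unless one of its first passages
belongs to an exceptional set of at most `C 2^(η i)` integers (starting library `H828R3.GP`, where the trajectories which
stay above `y` are treated).  If it reaches `O` before it has a term `≤ y`, then its first passage through the level of
`y` belongs to `O`.  A given integer near `2^i` is the first passage of at most `2^(k-i)` integers below `2^k`, up to powers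
of `k`.  This proves 1 for `N ≤ exp(y^γ)`.  The set of the integers considered is forward invariant, and the renewal argument
of the starting library (`stage'`, `restart`, which use the mixing theorem of Tao), extends the bound to all `N`.
2, 3, 5: The merging point and the entrance point do not change if `n` is replaced by its first passage through `y`,
except in the events of 1; and the law of the first passage does not depend on `X` up to an error
`(log (X/y))^(-c)` (our `FirstPassageLaw` for `MP_2d22f3_nt`).  So the laws are Cauchy sequences in total variation.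
The formula: if `a` is not periodic then `2a` and `b` are the only preimages of `a`, their sets of predecessors are disjoint,
and `n₁, n₂` merge in `a` if and only if one of them is a predecessor of `2a` and the other one of `b` (or one is `a`).
The tail: the first passages of `n₁` and `n₂` through `2z` are independent and almost always in `(z, 2z]`, so that they agree
with probability at least `c/z`.  The last part of 3 uses the positivity of `δ(a)`, `3 ∤ a` (starting library).
-/

namespace Pool.Agent.Results.MP_edb5be_nt.MergingLaw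

open Filter Topology

/-- the map `x/2` (`x` even), `(3x+d)/2` (`x` odd) -/
def T (d x : ℤ) : ℤ := if x % 2 = 0 then x / 2 else (3 * x + d) / 2

/-- the terms of the trajectory of `m` -/
def traj (d m : ℤ) : Set ℤ := {b | ∃ j : ℕ, (T d)^[j] m = b}

/-- the periodic integers -/
def periodic (d : ℤ) : Set ℤ := {x | ∃ p : ℕ, 1 ≤ p ∧ (T d)^[p] x = x}

/-- `n` enters `O` above `y`: the trajectory of `n` has a term in `O`, and all terms before it are `> y` -/
def Enters (d : ℤ) (O : Set ℤ) (y : ℝ) (n : ℤ) : Prop :=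
  ∃ i : ℕ, (T d)^[i] n ∈ O ∧ ∀ l < i, y < (((T d)^[l] n : ℤ) : ℝ)

/-- the proportion of the positive integers `n ≤ N` which enter `O` above `y` -/
noncomputable def share (d : ℤ) (O : Set ℤ) (y : ℝ) (N : ℕ) : ℝ :=
  ({n : ℤ | 1 ≤ n ∧ n ≤ N ∧ Enters d O y n}.ncard : ℝ) / N

/-- binary entropy of `log 2 / log 3`, to the base `2` -/
noncomputable def H : ℝ := Real.binEntropy (Real.log 2 / Real.log 3) / Real.log 2

open Classical in
/-- the merging point: the first term of the trajectory of `n` which is a term of the trajectory of `m`; `0` if there is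
none -/
noncomputable def merge (d n m : ℤ) : ℤ :=
  if h : ∃ i j : ℕ, (T d)^[i] n = (T d)^[j] m then (T d)^[Nat.find h] n else 0

open Classical in
/-- the entrance point: the first periodic term of the trajectory of `n`; `0` if there is none -/
noncomputable def entrance (d n : ℤ) : ℤ :=
  if h : ∃ i : ℕ, (T d)^[i] n ∈ periodic d then (T d)^[Nat.find h] n else 0

/-- the table of the merging points of `v 0, ..., v (k-1)`, with the entrance points on the diagonal -/
noncomputable def table {k : ℕ} (d : ℤ) (v : Fin k → ℤ) (i j : Fin k) : ℤ :=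
  if i = j then entrance d (v i) else merge d (v i) (v j)

/-- the integers from `1` to `X` -/
noncomputable def box (X : ℕ) : Finset ℤ := Finset.Icc 1 X

open Classical in
/-- the law of `m v` for uniform `v` in the finite set `s` -/
noncomputable def law {α ι : Type} (s : Finset α) (m : α → ι) (a : ι) : ℝ :=
  ((s.filter fun v => m v = a).card : ℝ) / s.card

/-- `l` is a probability law on `ι` -/
def IsLaw {ι : Type} (l : ι → ℝ) : Prop := (∀ a, 0 ≤ l a) ∧ HasSum l 1

/-- the `ℓ¹` distance of `L` and `l` is at most `ε` -/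
def Close {ι : Type} (L l : ι → ℝ) (ε : ℝ) : Prop := (Summable fun a => |L a - l a|) ∧ ∑' a, |L a - l a| ≤ ε

/-- the number of the positive integers `≤ X` whose trajectory contains `a` -/
noncomputable def preds (d a : ℤ) (X : ℕ) : ℕ := {x : ℤ | 1 ≤ x ∧ x ≤ X ∧ ∃ k : ℕ, (T d)^[k] x = a}.ncard

/-- `a` is not periodic -/
def NonPer (d a : ℤ) : Prop := ∀ k : ℕ, 1 ≤ k → (T d)^[k] a ≠ a

open Classical in
/-- the proportion of the pairs `n₁ ≤ X₁`, `n₂ ≤ X₂` such that `n₁` enters the trajectory of `n₂` above `z` -/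
noncomputable def pairs (d : ℤ) (z : ℝ) (X₁ X₂ : ℕ) : ℝ :=
  (((box X₁ ×ˢ box X₂).filter fun p => Enters d (traj d p.2) z p.1).card : ℝ) / (X₁ * X₂)

theorem meets_iff (d : ℤ) (y : ℝ) (m n : ℤ) : Pool.Agent.Q74.MG.Meets d y m n ↔ Enters d (traj d m) y n := by
  constructor
  · rintro ⟨i, j, h, h'⟩
    exact ⟨i, ⟨j, h.symm⟩, h'⟩
  · rintro ⟨i, ⟨j, h⟩, h'⟩
    exact ⟨i, j, h.symm, h'⟩

theorem result : (0.049 < 1 - H ∧ ∀ d : ℤ, d % 2 = 1 → ¬ (3 : ℤ) ∣ d →
      (∀ A η e : ℝ, 0 ≤ A → H < η → 0 < e → e < 1 - η → ∃ K : ℝ, 0 < K ∧ ∀ O : Set ℤ, (∀ x ∈ O, T d x ∈ O) →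
        (∀ X : ℝ, 1 ≤ X → ({b : ℤ | b ∈ O ∧ |(b : ℝ)| ≤ X}.ncard : ℝ) ≤ A * X ^ η) →
        ∀ (y : ℝ) (N : ℕ), 1 ≤ y → y ≤ N → share d O y N ≤ K * y ^ (-e)) ∧
      (∀ e : ℝ, 0 < e → e < 1 - H → ∃ K : ℝ, 0 < K ∧ ∀ (y : ℝ) (N : ℕ), 1 ≤ y → y ≤ N →
        (∀ m : ℤ, share d (traj d m) y N ≤ K * y ^ (-e)) ∧ share d (periodic d) y N ≤ K * y ^ (-e))) ∧
    ∃ c : ℝ, 0 < c ∧ ∀ d : ℤ, d % 2 = 1 → ¬ (3 : ℤ) ∣ d → ∃ K : ℝ, 0 < K ∧
    (∀ m : ℤ, ∃ l : ℤ × ℤ → ℝ, IsLaw l ∧ ∀ X : ℕ, 1 ≤ X →
      Close (law (box X) fun n => (merge d n m, entrance d n)) l (K * (1 + Real.log X) ^ (-c))) ∧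
    (∃ l : ℤ → ℝ, IsLaw l ∧
      (∀ N X₁ X₂ : ℕ, 1 ≤ N → N ≤ X₁ → N ≤ X₂ →
        Close (law (box X₁ ×ˢ box X₂) fun n => merge d n.1 n.2) l (K * (1 + Real.log N) ^ (-c))) ∧
      (∃ δ : ℤ → ℝ, (∀ a : ℤ, Tendsto (fun X : ℕ => (preds d a X : ℝ) / X) atTop (𝓝 (δ a))) ∧
        ∀ a : ℤ, NonPer d a → (∀ b : ℤ, 3 * b + d = 2 * a → l a = 2 * δ (2 * a) * δ b) ∧
          ((∀ b : ℤ, 3 * b + d ≠ 2 * a) → l a = 0)) ∧
      (∀ z : ℝ, 1 ≤ z → 1 / (K * z) ≤ ∑' a : ℤ, if z < (a : ℝ) then l a else 0) ∧
      (d = 1 → (l 0 = 0 ↔ ∀ n : ℤ, 1 ≤ n → ∃ k : ℕ, (T d)^[k] n = 1))) ∧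
    (∀ z : ℝ, 1 ≤ z → ∃ X₀ : ℕ, ∀ X₁ X₂ : ℕ, X₀ ≤ X₁ → X₀ ≤ X₂ → 1 / (K * z) ≤ pairs d z X₁ X₂) ∧
    ∀ k : ℕ, ∃ l : (Fin k → Fin k → ℤ) → ℝ, IsLaw l ∧ ∀ (N : ℕ) (X : Fin k → ℕ), 1 ≤ N → (∀ i, N ≤ X i) →
      Close (law (Fintype.piFinset fun i => box (X i)) (table d)) l (K * k ^ 2 * (1 + Real.log N) ^ (-c)) := by
  refine ⟨⟨?_, fun d hd hd3 => ⟨fun A η e hA hη he he' => ?_, fun e he he' => ?_⟩⟩, ?_⟩
  · have := Pool.Agent.H319R2.beta_lt
    unfold Pool.Agent.H319R2.beta at this
    unfold H
    linarith
  · exact Pool.Agent.Q74.MG.power_gen he hη he' hd hA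
  · obtain ⟨K, hK, h⟩ := Pool.Agent.Q74.MG.power he he' hd hd3
    refine ⟨K, hK, fun y N hy hyN => ⟨fun m => ?_, (h y N hy hyN).2⟩⟩
    have h1 := (h y N hy hyN).1 m
    have h2 : Pool.Agent.Q74.MG.fm d y m N = share d (traj d m) y N := by
      unfold Pool.Agent.Q74.MG.fm share
      simp only [meets_iff]
    rwa [h2] at h1
  obtain ⟨c, hc, h⟩ := Pool.Agent.Q74.MG.laws3
  refine ⟨c, hc, fun d hd hd3 => ?_⟩
  obtain ⟨K, hK, h2, ⟨l, hl0, hl1, h3, δ, hδ, h4, h5, h6⟩, h8, h7⟩ := h d hd hd3
  refine ⟨K, hK, fun m => ?_, ⟨l, ⟨hl0, hl1⟩, fun N X₁ X₂ hN h₁ h₂ => h3 N (X₁, X₂) hN ⟨h₁, h₂⟩, ⟨δ, hδ, fun a ha =>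
    ⟨fun b hb => h4 a b ha hb, fun hb => h5 a ha fun ⟨b, hb'⟩ => hb b hb'⟩⟩, h6, ?_⟩, fun z hz => ?_, fun k => ?_⟩
  · obtain ⟨l, g1, g2, g3⟩ := h2 m
    exact ⟨l, ⟨g1, g2⟩, g3⟩
  · rintro rfl
    exact Pool.Agent.Q74.MG.zero_iff (Pool.Agent.Q74.MG.lim_of (Pool.Agent.Q74.MG.B_tendsto hc K)
      (fun N hN => h3 N (N, N) hN ⟨le_rfl, le_rfl⟩) 0)
  · obtain ⟨X₀, hX₀⟩ := h8 z hz
    refine ⟨X₀, fun X₁ X₂ h₁ h₂ => ?_⟩
    refine (hX₀ X₁ X₂ h₁ h₂).trans (le_of_eq ?_)
    unfold Pool.Agent.Q74.MG.pm pairs box
    congr 3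
    ext p
    simp only [Finset.mem_filter, meets_iff]
  · obtain ⟨l, g1, g2, g3⟩ := h7 k
    exact ⟨l, ⟨g1, g2⟩, g3⟩

end Pool.Agent.Results.MP_edb5be_nt.MergingLaw
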