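import Mathlib
import Pool.Agent.Q74.PD.Unc2
import Pool.Agent.Q74.PD.Fin2
import Pool.Agent.Q153.PD3.Den
import Pool.Agent.Q153.PD3.Cla
import Pool.Agent.Q153.PD3.Lim
import Pool.Agent.Q153.PD3.Low
import Pool.Agent.Q74.PD.Rte2
import Pool.Agent.Q74.PD.Unc4

set_option autoImplicit false

/-!
# The number of predecessors of almost all integers

For an integer `a ≥ 1` let `preds a X` be the number of the positive integers `x ≤ X` whose trajectory under the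
`3x+d` map contains `a` (`d = 1`: the `3x+1` map on the positive integers; `d = -1`: the `3x+1` map on the negative
integers, with the signs changed), and `δ(a)` the natural density of the set of all these `x`. We determine `preds a X` for
almost all `a` and ALL `X ≥ R a`, `R` a large constant: it is close to `(2 / log (4/3)) D(a) X / a`, where `D(a)` is the
density at `a` of the law of the (`3`-adic) Syracuse random variable (approximately: of its reduction modulo `3^n`). The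
same holds for `δ(a)`, and `a δ(a)` has a limit law.

Proof. (i) The words of the inverse map which end at `a ∈ [A, 2A)` and start in `[(2A)^1.05, (2A)^1.1)` are counted by the
fine scale mixing of Syracuse random variables (Tao 2019; library `H499R2`). (ii) The sets of the `x` whose trajectory meets
`≥ l` elements of a subset of `[A, 2A)` are invariant above `2A`. The density of a set which is invariant above `y` is, up to
`o(1)`, its mean density over `[y^1.05, y^1.1)` (by mixing again, `DH3.lean`) and is attained already at `x ≥ R y`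
(harmonic functions of the walk with the steps `- log 2`, `log (3/2)`, `Flb.lean`). (iii) High layers are small, as a
trajectory seldom returns to `[A, 2A)` after many steps.

The rate in (3) comes from the mixing estimate with all powers (`Rte.lean`, `Rte2.lean`); the upper bounds for the tail of `D`
in addition from a bound for the words whose prefixes all have a small weight, at every point (`Sup9.lean`, `Tln.lean`,
`Tld.lean`), and the lower bounds from the words of length `3k` and sum `4k` (`Nwp.lean`, `Ltl.lean`). `D^2` is not integrable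
as the mean of `(3^n syr n)^2` grows at least linearly in `n` (`Sqg.lean`, `Nsq.lean`).

Lemmas by helper11, helper26, helper53, helper96, helper123, helper129, helper153, helper162, helper164, helper193, helper195,
helper196, helper204, helper208, helper211, helper224, helper237, helper241, helper251, helper285, helper299
(`Pool/Agent/Q<seat>/PD..`).
-/

namespace Pool.Agent.Results.MP_edb5be_nt.PredecessorDensities

open Filter Topology Finset MeasureTheory Pool.Agent.Q74.PD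

/-- the `3x+d` map -/
def T (d x : ℤ) : ℤ := if x % 2 = 0 then x / 2 else (3 * x + d) / 2

/-- the number of the positive integers `x ≤ X` whose trajectory contains `a` -/
noncomputable def preds (d a : ℤ) (X : ℕ) : ℕ := {x : ℤ | 1 ≤ x ∧ x ≤ X ∧ ∃ k : ℕ, (T d)^[k] x = a}.ncard

open Classical in
/-- the probability that `n` steps `a ↦ (2^e a - d)/3` of the random inverse walk, with independent `e ≥ 1`,
`P(e) = 2^(-e)`, stay in the integers; this is the probability that `d` times the Syracuse random variable is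
`≡ a` modulo `3^n` -/
noncomputable def syr (d : ℤ) : ℕ → ℤ → ℝ
  | 0, _ => 1
  | n + 1, a => ∑' e : ℕ, if (3 : ℤ) ∣ 2 ^ (e + 1) * a - d
      then (1 / 2 : ℝ) ^ (e + 1) * syr d n ((2 ^ (e + 1) * a - d) / 3) else 0

/-- the class of `b` modulo `3^n` in the `3`-adic integers -/
def Class (n : ℕ) (b : ℤ) : Set ℤ_[3] := {z | ‖z - (b : ℤ_[3])‖ ≤ (3 : ℝ) ^ (-(n : ℤ))}

theorem syr_eq (d : ℤ) (n : ℕ) : ∀ a : ℤ, syr d n a = Pool.Agent.Q74.PD.syr d n a := by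
  induction n with
  | zero => intro a; rfl
  | succ n ih =>
    intro a
    rw [syr, Pool.Agent.Q74.PD.syr]
    congr 1
    ext e
    split_ifs with h
    · rw [ih]
    · rfl

theorem Dn_eq (d : ℤ) (n : ℕ) (a : ℤ) : Dn d n a = 3 ^ n * syr d n a := by rw [syr_eq, Dn_syr]

/-- the distance of `a f(a)` from the prediction -/
noncomputable def err (d : ℤ) (n : ℕ) (f : ℤ → ℝ) (a : ℤ) : ℝ := |a * f a - 2 / Real.log (4 / 3) * (3 ^ n * syr d n a)|

theorem err_eq (d : ℤ) (n : ℕ) (f : ℤ → ℝ) (a : ℤ) : err d n f a = |a * f a - c0 * Dn d n a| := by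
  rw [Dn_eq]; rfl

/-- the constants of (2) and (5) -/
theorem tails {c : ℝ} (hc : 0 < c) {ε : ℝ} (hε : 0 < ε) : ∃ K : ℝ, 1 ≤ K ∧ ∀ d : ℤ, Odd d → IsCoprime d 3 →
    (∀ n : ℕ, 1 ≤ n → ∀ b : ℤ, ¬ (3 : ℤ) ∣ b → c ≤ Dn d n b) →
    ∀ D : ℤ_[3] → ℝ, Measurable D → (∀ z, 0 ≤ D z) → Integrable D haar3 →
    Tendsto (fun n : ℕ => ∫ z, |Fz d n z - D z| ∂haar3) atTop (𝓝 0) →
    (∀ t : ℝ, 1 ≤ t → t ^ (-2 - ε) / K ≤ haar3.real {z | t < D z} ∧ haar3.real {z | t < D z} ≤ K * t ^ (-2 + ε)) ∧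
    ((∀ φ : BoundedContinuousFunction (ℤ_[3] × ℝ) ℝ,
      Tendsto (fun N : ℕ => (∑ a ∈ Icc (1 : ℤ) N, φ ((a : ℤ_[3]), a * dsy (Pr d a))) / N) atTop
        (𝓝 (∫ z, φ (z, c0 * D z) ∂haar3))) →
      ∀ t : ℝ, 1 ≤ t → ∃ N₀ : ℕ, ∀ N : ℕ, N₀ ≤ N →
        t ^ (-2 - ε) / K * N ≤ ({a : ℤ | 1 ≤ a ∧ a ≤ N ∧ t < a * dsy (Pr d a)}.ncard : ℝ) ∧
        ({a : ℤ | 1 ≤ a ∧ a ≤ N ∧ t < a * dsy (Pr d a)}.ncard : ℝ) ≤ K * t ^ (-2 + ε) * N) := by
  obtain ⟨ε₁, hε₁⟩ : ∃ ε₁ : ℝ, ε₁ = min ε 1 := ⟨_, rfl⟩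
  have h0 : 0 < ε₁ := by rw [hε₁]; positivity
  have h1 : ε₁ ≤ 1 := by rw [hε₁]; exact min_le_right _ _
  have h2 : ε₁ ≤ ε := by rw [hε₁]; exact min_le_left _ _
  obtain ⟨C₁, hC₁, hup⟩ := tld_ ε₁ h0
  obtain ⟨C₂, hC₂, hlo⟩ := ltl haa_ nwl_ nwc_ nwp_ hc h0
  obtain ⟨K, hK⟩ : ∃ K : ℝ, K = max 1 (max C₁ C₂) := ⟨_, rfl⟩
  have hK1 : 1 ≤ K := by rw [hK]; exact le_max_left _ _
  have hK2 : C₁ ≤ K := by rw [hK]; exact (le_max_left _ _).trans (le_max_right _ _)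
  have hK3 : C₂ ≤ K := by rw [hK]; exact (le_max_right _ _).trans (le_max_right _ _)
  have hcc : 1 ≤ 4 * c0 ^ 2 + 1 := by nlinarith [sq_nonneg c0]
  have hKK : 1 ≤ 2 * (4 * c0 ^ 2 + 1) * K := by nlinarith
  refine ⟨2 * (4 * c0 ^ 2 + 1) * K, hKK, fun d hd hd3 hcb D hDm hD0 hDi hDl => ?_⟩
  have hlo' : ∀ t : ℝ, 1 ≤ t → t ^ (-2 - ε₁) / K ≤ haar3.real {z | t < D z} := by
    intro t ht
    refine le_trans ?_ (hlo d hd3 hcb D hDm hDi hDl t ht)
    exact div_le_div_of_nonneg_left (by positivity) hC₂ hK3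
  have hup' : ∀ t : ℝ, 1 ≤ t → haar3.real {z | t < D z} ≤ K * t ^ (-2 + ε₁) := by
    intro t ht
    have h3 := utail haa_ hDm hDi (by linarith : 0 < t) (hup d hd3 D hDm hD0 hDi hDl t ht)
    exact h3.trans (mul_le_mul_of_nonneg_right hK2 (by positivity))
  have e1 : ∀ t : ℝ, 1 ≤ t → ∀ K' : ℝ, 0 < K' → K' ≤ 2 * (4 * c0 ^ 2 + 1) * K →
      t ^ (-2 - ε) / (2 * (4 * c0 ^ 2 + 1) * K) ≤ t ^ (-2 - ε₁) / K' := by
    intro t ht K' hK' hK''
    have h3 : t ^ (-2 - ε) ≤ t ^ (-2 - ε₁) := Real.rpow_le_rpow_of_exponent_le ht (by linarith)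
    exact div_le_div₀ (by positivity) h3 hK' hK''
  have e2 : ∀ t : ℝ, 1 ≤ t → ∀ K' : ℝ, 0 < K' → K' ≤ 2 * (4 * c0 ^ 2 + 1) * K →
      K' * t ^ (-2 + ε₁) ≤ 2 * (4 * c0 ^ 2 + 1) * K * t ^ (-2 + ε) := by
    intro t ht K' hK' hK''
    have h3 : t ^ (-2 + ε₁) ≤ t ^ (-2 + ε) := Real.rpow_le_rpow_of_exponent_le ht (by linarith)
    exact mul_le_mul hK'' h3 (by positivity) (by linarith)
  refine ⟨fun t ht => ⟨(e1 t ht K (by linarith) (by nlinarith)).trans (hlo' t ht),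
    (hup' t ht).trans (e2 t ht K (by linarith) (by nlinarith))⟩, fun hlim t ht => ?_⟩
  obtain ⟨N₀, hN₀⟩ := cnt_pow haa_ hDm hlim h0 h1 hK1 hlo' hup' t ht
  refine ⟨N₀, fun N hN => ?_⟩
  obtain ⟨g1, g2⟩ := hN₀ N hN
  have hN0 : (0 : ℝ) ≤ N := Nat.cast_nonneg N
  exact ⟨(mul_le_mul_of_nonneg_right (e1 t ht (2 * K) (by linarith) (by nlinarith)) hN0).trans g1,
    g2.trans (mul_le_mul_of_nonneg_right (e2 t ht ((4 * c0 ^ 2 + 1) * K) (by positivity) (by nlinarith)) hN0)⟩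

open Classical in
/-- THE NUMBER OF PREDECESSORS OF ALMOST ALL INTEGERS. There are `c > 0`, `K : ℕ → ℝ` and `L : ℝ → ℝ` such that for all odd
`d` prime to `3` there are `δ : ℤ → ℝ`, a set `E` of integers and `D : ℤ_[3] → [0, ∞)`, integrable for the Haar probability
`haar3`, with:
(1) For all `a ≥ 1` the positive integers whose trajectory contains `a` have natural density `δ a`.
(2) `D` is the density of the law of the (`3`-adic) Syracuse random variable times `d`: its integral over the class of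
`b` modulo `3^n` is `syr d n b`. Almost everywhere `D = 0` on the multiples of `3` and `D ≥ c` on the units. `D^p` is
integrable for `1 ≤ p < 2`, but `D^2` is not; for all `ε > 0` and `t ≥ 1` the measure of `{D > t}` is between
`t^(-2-ε) / L ε` and `L ε t^(-2+ε)`.
(3) For all `ε > 0` there are `n₀`, `R` such that for all `n ≥ 1`, `N ≥ N₀(ε, n)`, ALL `X ≥ R N` and all `B` the sum of
`|a preds(a, X) / X - (2 / log (4/3)) 3^n syr d n a|` over the `a ≤ N` not in `E` is at most `(K B / n^B + ε) N`, and if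
`n ≥ n₀` this difference is at most `ε` for all but at most `ε N` of the `a ≤ N`; the same holds with `δ a` in place of
`preds(a, X) / X`.
(4) `E` has at most `N^(1-η)` elements `a ≤ N`, for some `η > 0` and all large `N`. The mean value of `a δ(a)` over
the `a ≤ N` which are not in `E` and `≡ r` modulo `3^j` (sum divided by `N`) tends to `(2 / log (4/3)) syr d j r`.
(5) LIMIT LAW. For every bounded continuous `φ` on `ℤ_[3] × ℝ` the mean value of `φ(a, a δ(a))` over the `a ≤ N` tends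
to the integral of `φ(z, (2 / log (4/3)) D(z))`; for all `ε > 0`, `t ≥ 1` and `N ≥ N₀(ε, t)` the number of the `a ≤ N` with
`a δ(a) > t` is between `t^(-2-ε) / L ε` and `L ε t^(-2+ε)` times `N`. -/
theorem result : ∃ (c : ℝ) (K : ℕ → ℝ) (L : ℝ → ℝ), 0 < c ∧ ∀ d : ℤ, d % 2 = 1 → ¬ (3 : ℤ) ∣ d →
    ∃ (δ : ℤ → ℝ) (E : Set ℤ) (D : ℤ_[3] → ℝ),
    (∀ a : ℤ, 1 ≤ a → Tendsto (fun X : ℕ => (preds d a X : ℝ) / X) atTop (𝓝 (δ a))) ∧
    (Measurable D ∧ (∀ z, 0 ≤ D z) ∧ Integrable D haar3 ∧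
      (∀ (n : ℕ) (b : ℤ), ∫ z in Class n b, D z ∂haar3 = syr d n b) ∧
      (∀ᵐ z ∂haar3, ‖z‖ < 1 → D z = 0) ∧ (∀ᵐ z ∂haar3, ‖z‖ = 1 → c ≤ D z) ∧
      (∀ p : ℝ, 1 ≤ p → p < 2 → Integrable (fun z => D z ^ p) haar3) ∧
      ¬ Integrable (fun z => D z ^ 2) haar3 ∧
      ∀ ε t : ℝ, 0 < ε → 1 ≤ t → t ^ (-2 - ε) / L ε ≤ haar3.real {z | t < D z} ∧
        haar3.real {z | t < D z} ≤ L ε * t ^ (-2 + ε)) ∧
    (∀ ε : ℝ, 0 < ε → ∃ (n₀ : ℕ) (R : ℝ), ∀ n : ℕ, 1 ≤ n → ∃ N₀ : ℕ, ∀ N : ℕ, N₀ ≤ N →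
      ((∀ B : ℕ, ∑ a ∈ (Icc (1 : ℤ) N).filter (fun a => a ∉ E), err d n δ a ≤ (K B / n ^ B + ε) * N) ∧
        (n₀ ≤ n → ({a : ℤ | 1 ≤ a ∧ a ≤ N ∧ ε < err d n δ a}.ncard : ℝ) ≤ ε * N)) ∧
      ∀ X : ℕ, R * N ≤ X →
        (∀ B : ℕ, ∑ a ∈ (Icc (1 : ℤ) N).filter (fun a => a ∉ E), err d n (fun a => preds d a X / X) a ≤
          (K B / n ^ B + ε) * N) ∧
        (n₀ ≤ n → ({a : ℤ | 1 ≤ a ∧ a ≤ N ∧ ε < err d n (fun a => preds d a X / X) a}.ncard : ℝ) ≤ ε * N)) ∧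
    ((∃ η : ℝ, 0 < η ∧ ∃ N₀ : ℕ, ∀ N : ℕ, N₀ ≤ N →
        ({a : ℤ | 1 ≤ a ∧ a ≤ N ∧ a ∈ E}.ncard : ℝ) ≤ (N : ℝ) ^ (1 - η)) ∧
      ∀ (j : ℕ) (r : ℤ), Tendsto (fun N : ℕ =>
        (∑ a ∈ (Icc (1 : ℤ) N).filter (fun a => a ∉ E ∧ (3 : ℤ) ^ j ∣ a - r), a * δ a) / N) atTop
        (𝓝 (2 / Real.log (4 / 3) * syr d j r))) ∧
    (∀ φ : BoundedContinuousFunction (ℤ_[3] × ℝ) ℝ,
      Tendsto (fun N : ℕ => (∑ a ∈ Icc (1 : ℤ) N, φ ((a : ℤ_[3]), a * δ a)) / N) atTop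
        (𝓝 (∫ z, φ (z, 2 / Real.log (4 / 3) * D z) ∂haar3))) ∧
    ∀ ε t : ℝ, 0 < ε → 1 ≤ t → ∃ N₀ : ℕ, ∀ N : ℕ, N₀ ≤ N →
      t ^ (-2 - ε) / L ε * N ≤ ({a : ℤ | 1 ≤ a ∧ a ≤ N ∧ t < a * δ a}.ncard : ℝ) ∧
      ({a : ℤ | 1 ≤ a ∧ a ≤ N ∧ t < a * δ a}.ncard : ℝ) ≤ L ε * t ^ (-2 + ε) * N := by
  have hlim : S_Lim := Pool.Agent.Q153.PD3.lim haa_ exc_ all_ dlm_
  obtain ⟨c, hc, hlow⟩ := Pool.Agent.Q153.PD3.low hlim
  choose K hK0 hK using rte_
  have htail : ∀ ε : ℝ, ∃ K : ℝ, 0 < ε → 1 ≤ K ∧ _ := fun ε => by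
    by_cases hε : 0 < ε
    · exact (tails hc hε).imp fun K hK _ => hK
    · exact ⟨0, fun h => absurd h hε⟩
  choose L hL using htail
  refine ⟨c, fun B => (2 + c0) * K B, L, hc, fun d hd2 hd3' => ?_⟩
  have hc0 : 0 < c0 := c0_pos
  have hd : Odd d := Int.odd_iff.2 hd2
  have hd3 : IsCoprime d 3 := by
    rw [isCoprime_comm]
    exact (Int.prime_three.coprime_iff_not_dvd).2 hd3'
  obtain ⟨D, hDm, hD0, hDi, hDl, hDc⟩ := Pool.Agent.Q153.PD3.den haa_ cau_ dlm_ d hd hd3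
  have hlowD := hlow d hd hd3 D hDm hDi hD0 hDl
  have hnsq := nsq_ d hd3 D hDm hD0 hDi hDc c hc hlowD
  have hDlow := Dn_low haa_ hDi hDc hlowD
  refine ⟨fun a => dsy (Pr d a), Ex d, D, fun a ha => cntP_lim hd hd3 ha,
    ⟨hDm, hD0, hDi, fun n b => ?_, ?_, hlowD, ?_, hnsq, fun ε t hε ht =>
      ((hL ε hε).2 d hd hd3 hDlow D hDm hD0 hDi hDl).1 t ht⟩,
    fun ε hε => ?_, ⟨exc_ d hd, fun j r => ?_⟩, fun φ => ?_, fun ε t hε ht =>
      ((hL ε hε).2 d hd hd3 hDlow D hDm hD0 hDi hDl).2 (fun φ => hlim d hd hd3 D hDm hDi hDl φ) t ht⟩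
  · have h := hDc n b
    rw [syr_div, ← syr_eq] at h
    exact h
  · exact zero_three haa_ hd3' hDm hD0 hDi hDc
  · have hprob := haa_.1
    exact lpp_ ℤ_[3] _ haar3 hprob D hDm hD0 hDi fun ε hε =>
      (tld_ ε hε).imp fun C hC t ht => hC.2 d hd3 D hDm hD0 hDi hDl t ht
  · set ε' : ℝ := min (ε / 2) (ε * ε / 2) with hε'_def
    have hε' : 0 < ε' := by positivity
    obtain ⟨n₁, h1⟩ := all_ d hd hd3 ε' hε'
    obtain ⟨n₂, R, hR, h2⟩ := alx alb_ hd hd3 hε'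
    obtain ⟨N₃, h3⟩ := markov exc_ hd hε
    refine ⟨max n₁ n₂, R, fun n hn1 => ?_⟩
    obtain ⟨m, hm⟩ : ∃ m, m = max n (max n₁ n₂) := ⟨_, rfl⟩
    have hnm : n ≤ m := by rw [hm]; exact le_max_left _ _
    obtain ⟨N₁, h1'⟩ := h1 m (by rw [hm]; exact (le_max_left _ _).trans (le_max_right _ _))
    obtain ⟨N₂, h2'⟩ := h2 m (by rw [hm]; exact (le_max_right _ _).trans (le_max_right _ _))
    obtain ⟨S, hS⟩ : ∃ S : ℝ, S = ∑ b ∈ range (3 ^ m), |Dn d m b - Dn d n b| := ⟨_, rfl⟩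
    obtain ⟨N₄, hN₄⟩ := exists_nat_ge (c0 * S / (ε / 2))
    refine ⟨max N₁ (max N₂ (max N₃ N₄)), fun N hN => ?_⟩
    simp only [max_le_iff] at hN
    obtain ⟨g1, g2, g3, g4⟩ := hN
    have hN0 : (0 : ℝ) ≤ N := Nat.cast_nonneg N
    have e1 : ε' * N ≤ ε / 2 * N := mul_le_mul_of_nonneg_right (min_le_left _ _) hN0
    have e2 : ε' * N ≤ ε * ε / 2 * N := mul_le_mul_of_nonneg_right (min_le_right _ _) hN0
    have e3 : c0 * S ≤ ε / 2 * N := by
      have h4 : c0 * S / (ε / 2) ≤ N := hN₄.trans (by exact_mod_cast g4)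
      rw [div_le_iff₀ (by positivity)] at h4
      linarith
    have hsum : ∀ B : ℕ, c0 * ∑ a ∈ Icc (1 : ℤ) N, |Dn d m a - Dn d n a| ≤
        ((2 + c0) * K B / (n : ℝ) ^ B + ε / 2) * N := by
      intro B
      have h4 := sum_diff hd3 dlm_ hnm N
      rw [← hS] at h4
      have h5 : S ≤ K B / (n : ℝ) ^ B * 3 ^ m := by rw [hS]; exact hK B d hd3 n m hn1 hnm
      have h6 : (N : ℝ) / 3 ^ m * S ≤ N * (K B / (n : ℝ) ^ B) := by
        calc (N : ℝ) / 3 ^ m * S ≤ N / 3 ^ m * (K B / (n : ℝ) ^ B * 3 ^ m) :=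
              mul_le_mul_of_nonneg_left h5 (by positivity)
          _ = N * (K B / (n : ℝ) ^ B) := by field_simp
      have h7 : 0 ≤ K B / (n : ℝ) ^ B := by have := hK0 B; positivity
      have h8 : (2 + c0) * K B / (n : ℝ) ^ B = (2 + c0) * (K B / (n : ℝ) ^ B) := by ring
      rw [h8]
      calc c0 * ∑ a ∈ Icc (1 : ℤ) N, |Dn d m a - Dn d n a| ≤ c0 * (((N : ℝ) / 3 ^ m + 1) * S) :=
            mul_le_mul_of_nonneg_left h4 hc0.le
        _ = c0 * ((N : ℝ) / 3 ^ m * S) + c0 * S := by ring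
        _ ≤ c0 * (N * (K B / (n : ℝ) ^ B)) + ε / 2 * N := add_le_add (mul_le_mul_of_nonneg_left h6 hc0.le) e3
        _ ≤ ((2 + c0) * (K B / (n : ℝ) ^ B) + ε / 2) * N := by
            have h9 : 0 ≤ 2 * (K B / (n : ℝ) ^ B) * N := by positivity
            linarith
    have key : ∀ f : ℤ → ℝ, ∑ a ∈ (Icc (1 : ℤ) N).filter (fun a => a ∉ Ex d), |a * f a - c0 * Dn d m a| ≤ ε' * N →
        (∀ B : ℕ, ∑ a ∈ (Icc (1 : ℤ) N).filter (fun a => a ∉ Ex d), err d n f a ≤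
          ((2 + c0) * K B / (n : ℝ) ^ B + ε) * N) ∧
        (max n₁ n₂ ≤ n → ({a : ℤ | 1 ≤ a ∧ a ≤ N ∧ ε < err d n f a}.ncard : ℝ) ≤ ε * N) := by
      intro f hf
      refine ⟨fun B => ?_, fun hn => ?_⟩
      · have h4 : ∀ a ∈ (Icc (1 : ℤ) N).filter (fun a => a ∉ Ex d), err d n f a ≤
            |a * f a - c0 * Dn d m a| + c0 * |Dn d m a - Dn d n a| := by
          intro a _
          rw [err_eq]
          have e : a * f a - c0 * Dn d n a = (a * f a - c0 * Dn d m a) + c0 * (Dn d m a - Dn d n a) := by ring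
          rw [e]
          refine (abs_add_le _ _).trans ?_
          rw [abs_mul, abs_of_pos hc0]
        have h5 := sum_le_sum h4
        rw [sum_add_distrib, ← mul_sum] at h5
        have h6 : ∑ a ∈ (Icc (1 : ℤ) N).filter (fun a => a ∉ Ex d), |Dn d m a - Dn d n a| ≤
            ∑ a ∈ Icc (1 : ℤ) N, |Dn d m a - Dn d n a| :=
          sum_le_sum_of_subset_of_nonneg (filter_subset _ _) fun _ _ _ => abs_nonneg _
        have h7 := mul_le_mul_of_nonneg_left h6 hc0.le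
        have h8 := hsum B
        linarith
      · have hmn : m = n := by rw [hm]; exact max_eq_left hn
        rw [hmn] at hf
        have hf' : ∑ a ∈ (Icc (1 : ℤ) N).filter (fun a => a ∉ Ex d), err d n f a ≤ ε' * N := by
          simp only [err_eq]; exact hf
        exact h3 N g3 (err d n f) (fun a => abs_nonneg _) (hf'.trans e2)
    exact ⟨key _ (h1' N g1), fun X hX => key _ (h2' N g2 X hX)⟩
  · have h := Pool.Agent.Q153.PD3.cla exc_ all_ dlm_ d hd hd3 j r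
    rw [syr_div, ← syr_eq] at h
    exact h
  · exact hlim d hd hd3 D hDm hDi hDl φ

end Pool.Agent.Results.MP_edb5be_nt.PredecessorDensities
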