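import Pool.Agent.Q74.SF.Res
import Pool.Agent.Q177.SF.Comp
import Pool.Agent.Q210.SF.CInj
import Pool.Agent.Q210.SF.Cont
import Pool.Agent.Q176.SF.Expand
import Pool.Agent.Q176.SF.Prod
import Pool.Agent.Q6.SF.Lip
import Pool.Agent.Q216.SF.Cross
import Pool.Agent.Q14.SF.Fix
import Pool.Agent.Q14.SF.Conv
import Pool.Agent.Q225.SF.Bad

/-!
# Random points of short intervals under the 3x+1 map: the coalescing flow

`T d x = x / 2` for even `x` and `(3 x + d) / 2` for odd `x` (`d` odd; `T 1` is the 3x+1 map on the integers).
Choose an integer `n` at random in an interval of length at least `K 2^t` (or in any progression of odd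
difference), and `k` random points at distances less than `H` from it (in a progression of difference `d`). We
find the joint limit law, as `t → ∞`, of all the coincidences among the `k + 1` integers after `t` steps and of the
numbers of their odd terms, uniformly in `H ≥ 1`, in `d` and in the interval:

* up to the time `fr t H = 2 log H / log (4/3)` (or `t` if this is smaller) the `k + 1` trajectories are
  independent: their levels (numbers of odd terms) are those of independent coin tossing walkers;
* from then on the levels are coalescing walkers: walkers at different places are independent, and walkers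
  which meet stay together forever; trajectories have merged if and only if their walkers have.

For two points this is the arcsine law: the probability that they have merged after `t` steps is
`(2 / π) arccos √(2 log H / (t log (4/3)))`. For functions which are constant along trajectories (for instance, the
cycle which is reached, or the basin) one gets bounds for the probability that they take `k + 1` different
values, and for the probability that they take one value only, at `k + 1` random points of short intervals.

Proof. (1) The first phase: the law of the number of odd steps in all intervals and its independence for `k + 1`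
random points (S_Prod; Fourier coefficients of the map modulo `2 ^ m`). (2) After `m = fr t H` steps the offsets
are `T^m (n + h_i) - 3^(a_i - a_j) T^m (n + h_j) = exp (o (m))` (S_Bad), and the steps up to `m` and after `m` decouple
exactly (S_Mark); so the law of all coincidences for fixed starting points with small offsets applies (S_Fix). This
law is derived from the law on the event that no two have met (project KP; decorrelation of the parities of
`k` trajectories by a Cauchy-Schwarz inequality in the occupation times) and from the absence of crossings, by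
inclusion and exclusion in ordered configurations (S_Expand). (3) The coalescing walkers forget small changes of
the starting points (S_Lip, S_Cont).

Lemmas by helper177 (Comp), helper210 (CInj, Cont), helper176 (Expand, Prod), helper6 (Lip), helper216 (Sep, Cross),
helper14 (Fix, Conv), helper225 (Mark, Bad).
-/

set_option autoImplicit false

namespace Pool.Agent.Results.MP_edb5be_nt.ShortIntervalFlow

open Finset

/-- the map `T_d` on the integers; `T 1` is the 3x+1 map -/
def T (d x : ℤ) : ℤ := if x % 2 = 0 then x / 2 else (3 * x + d) / 2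

/-- the number of the odd terms among `x, T x, ..., T^(t-1) x` -/
def odds (d : ℤ) (t : ℕ) (x : ℤ) : ℕ := ((range t).filter (fun i => (T d)^[i] x % 2 = 1)).card

/-- free walkers: the expected value of `F` (places of the walkers) after `m` steps of independent walkers which
start at the places `a` and stay or move one to the right with probability `1 / 2` each at every step -/
noncomputable def free {k : ℕ} (F : (Fin k → ℤ) → ℝ) : ℕ → (Fin k → ℤ) → ℝ
  | 0 => F
  | m + 1 => fun a => (∑ A : Finset (Fin k), free F m (fun i => a i + if i ∈ A then 1 else 0)) / 2 ^ k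

/-- coalescing walkers: the expected value of `F` (places of the walkers) after `r` steps, if at every step each
of the occupied places is chosen with probability `1 / 2`, independently, and all the walkers at the chosen places
move one to the right -/
noncomputable def coal {k : ℕ} (F : (Fin k → ℤ) → ℝ) : ℕ → (Fin k → ℤ) → ℝ
  | 0 => F
  | r + 1 => fun a => (∑ B ∈ (univ.image a).powerset, coal F r (fun i => a i + if a i ∈ B then 1 else 0)) /
      2 ^ (univ.image a).card

/-- the free time `2 log H / log (4/3)`, but at most `t` -/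
noncomputable def fr (t H : ℕ) : ℕ := min t ⌊2 * Real.log H / Real.log (4 / 3)⌋₊

/-- the flow: `k` walkers start at `0`, are free for `fr t H` steps and coalesce at the remaining steps; the expected
value of `F` after all the `t` steps -/
noncomputable def flow {k : ℕ} (F : (Fin k → ℤ) → ℝ) (t H : ℕ) : ℝ := free (coal F (t - fr t H)) (fr t H) 0

/-- the points `x`, `x + d h_1`, ..., `x + d h_k` -/
def pts {k H : ℕ} (d x : ℤ) (h : Fin k → Fin H) : Fin (k + 1) → ℤ := Fin.cons x (fun j => x + d * (h j : ℕ))

theorem free_eq {k : ℕ} (F : (Fin k → ℤ) → ℝ) (m : ℕ) : free F m = Pool.Agent.Q74.SF.FR F m := by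
  induction m with
  | zero => rfl
  | succ m ih =>
    funext a
    simp only [free, Pool.Agent.Q74.SF.FR, ih]

theorem coal_eq {k : ℕ} (F : (Fin k → ℤ) → ℝ) (r : ℕ) : coal F r = Pool.Agent.Q74.SF.CG F r := by
  induction r with
  | zero => rfl
  | succ r ih =>
    funext a
    simp only [coal, Pool.Agent.Q74.SF.CG, ih]

theorem flow_eq {k : ℕ} (F : (Fin k → ℤ) → ℝ) (t H : ℕ) : flow F t H =
    Pool.Agent.Q74.SF.FR (Pool.Agent.Q74.SF.CG F (t - Pool.Agent.Q74.SF.fr t H)) (Pool.Agent.Q74.SF.fr t H) 0 := by
  unfold flow
  rw [free_eq, coal_eq]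
  rfl

theorem pts_eq {k H : ℕ} (d u s n : ℤ) (h : Fin k → Fin H) : pts d (u * n + s) h = Pool.Agent.Q74.SF.pt d u s n h := by
  funext i
  unfold pts Pool.Agent.Q74.SF.pt
  refine Fin.cases ?_ (fun j => ?_) i
  · simp
  · simp

open Classical in
theorem result :
    (∀ (k : ℕ) (Λ ε : ℝ), 0 ≤ Λ → 0 < ε → ∃ t₀ K : ℕ, ∀ t : ℕ, t₀ ≤ t → ∀ H : ℕ, 1 ≤ H →
      ∀ d : ℤ, d % 2 = 1 → ∀ (u s : ℤ), u % 2 = 1 → ∀ (M : ℤ) (L : ℕ), 1 ≤ L → K * 2 ^ t ≤ L →
      -- the law of all coincidences and all levels
      (∀ (π : Fin (k + 1) → Fin (k + 1)) (G : (Fin (k + 1) → ℝ) → ℝ), (∀ x, |G x| ≤ 1) →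
        (∀ x y, |G x - G y| ≤ Λ * ∑ i, |x i - y i|) →
        |(∑ h : Fin k → Fin H, ∑ n ∈ Ico M (M + L),
            (if ∀ i j, (T d)^[t] (pts d (u * n + s) h i) = (T d)^[t] (pts d (u * n + s) h j) ↔ π i = π j then
              G (fun i => (odds d t (pts d (u * n + s) h i) - t / 2) / √t) else 0)) / ((H : ℝ) ^ k * L) -
          flow (fun z => if ∀ i j, z i = z j ↔ π i = π j then G (fun i => (z i - t / 2) / √t) else 0) t H| ≤ ε) ∧
      -- functions constant along trajectories: many values, one value
      (∀ F : ℤ → ℕ, (∀ x, F (T d x) = F x) →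
        (∑ h : Fin k → Fin H, ({n : ℤ | M ≤ n ∧ n < M + L ∧
            Function.Injective (fun i => F (pts d (u * n + s) h i))}.ncard : ℝ)) / ((H : ℝ) ^ k * L) ≤
          flow (fun z : Fin (k + 1) → ℤ => if Function.Injective z then 1 else 0) t H + ε ∧
        flow (fun z : Fin (k + 1) → ℤ => if ∀ i j, z i = z j then 1 else 0) t H - ε ≤
          (∑ h : Fin k → Fin H, ({n : ℤ | M ≤ n ∧ n < M + L ∧
            ∀ i j, F (pts d (u * n + s) h i) = F (pts d (u * n + s) h j)}.ncard : ℝ)) / ((H : ℝ) ^ k * L))) ∧
    -- two walkers
    (∀ ε : ℝ, 0 < ε → ∃ t₀ : ℕ, ∀ t : ℕ, t₀ ≤ t → ∀ H : ℕ, 1 ≤ H →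
      |flow (fun z : Fin 2 → ℤ => if z 0 = z 1 then 1 else 0) t H -
        2 / Real.pi * Real.arccos (√(2 * Real.log H / (t * Real.log (4 / 3))))| ≤ ε) := by
  obtain ⟨b1, b2⟩ := Pool.Agent.Q74.SF.final
      (Pool.Agent.Q14.SF.fix Pool.Agent.Q176.SF.Expand.expand Pool.Agent.Q216.SF.sep Pool.Agent.Q216.SF.cross
        Pool.Agent.Q177.SF.comp Pool.Agent.Q210.SF.cinj Pool.Agent.Q177.SF.cmono)
      Pool.Agent.Q225.SF.mark Pool.Agent.Q225.SF.bad Pool.Agent.Q176.SF.Prod.prod
      (Pool.Agent.Q210.SF.cont
        (Pool.Agent.Q6.SF.lip Pool.Agent.Q176.SF.Expand.expand Pool.Agent.Q177.SF.comp Pool.Agent.Q210.SF.cinj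
          Pool.Agent.Q177.SF.cmono)
        Pool.Agent.Q177.SF.comp)
      Pool.Agent.Q210.SF.cinj Pool.Agent.Q177.SF.comp Pool.Agent.Q14.SF.conv
  refine ⟨fun k Λ ε hΛ hε => ?_, fun ε hε => ?_⟩
  · obtain ⟨t₀, K, h0⟩ := b1 k Λ ε hΛ hε
    refine ⟨t₀, K, fun t ht H hH d hd u s hu M L hL1 hL => ?_⟩
    obtain ⟨h1, h2⟩ := h0 t ht H hH d hd u s hu M L hL1 hL
    have key : ∀ (π : Fin (k + 1) → Fin (k + 1)) (G : (Fin (k + 1) → ℝ) → ℝ), (∀ x, |G x| ≤ 1) →
        (∀ x y, |G x - G y| ≤ Λ * ∑ i, |x i - y i|) →
        |(∑ h : Fin k → Fin H, ∑ n ∈ Ico M (M + L),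
            (if ∀ i j, (T d)^[t] (pts d (u * n + s) h i) = (T d)^[t] (pts d (u * n + s) h j) ↔ π i = π j then
              G (fun i => (odds d t (pts d (u * n + s) h i) - t / 2) / √t) else 0)) / ((H : ℝ) ^ k * L) -
          flow (fun z => if ∀ i j, z i = z j ↔ π i = π j then G (fun i => (z i - t / 2) / √t) else 0) t H| ≤ ε := by
      intro π G hG hGL
      have h3 := h1 π G hG hGL
      rw [flow_eq]
      simp only [pts_eq]
      exact h3
    refine ⟨key, fun F hFi => ⟨?_, ?_⟩⟩
    · have h3 := h2 F hFi
      rw [flow_eq]
      simp only [pts_eq]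
      exact h3
    · have h3 := (abs_le.1 (key (fun _ => 0) (fun _ => 1) (fun _ => by rw [abs_one]) (fun x y => by
        rw [sub_self, abs_zero]
        exact mul_nonneg hΛ (sum_nonneg fun i _ => abs_nonneg _)))).1
      have hiter : ∀ (m : ℕ) (x : ℤ), F ((T d)^[m] x) = F x := by
        intro m
        induction m with
        | zero => intro x; rfl
        | succ m ih =>
          intro x
          rw [Function.iterate_succ_apply, ih, hFi]
      have e2 : (fun z : Fin (k + 1) → ℤ => if ∀ i j, z i = z j ↔ (fun _ => (0 : Fin (k + 1))) i = (fun _ => (0 : Fin (k + 1))) j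
          then (1 : ℝ) else 0) = fun z => if ∀ i j, z i = z j then 1 else 0 := by
        funext z
        simp
      rw [e2] at h3
      have h4 : (∑ h : Fin k → Fin H, ∑ n ∈ Ico M (M + L),
              (if ∀ i j, (T d)^[t] (pts d (u * n + s) h i) = (T d)^[t] (pts d (u * n + s) h j) ↔
                (fun _ => (0 : Fin (k + 1))) i = (fun _ => (0 : Fin (k + 1))) j then
                (1 : ℝ) else 0)) / ((H : ℝ) ^ k * L) ≤
          (∑ h : Fin k → Fin H, ({n : ℤ | M ≤ n ∧ n < M + L ∧
            ∀ i j, F (pts d (u * n + s) h i) = F (pts d (u * n + s) h j)}.ncard : ℝ)) / ((H : ℝ) ^ k * L) := by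
        apply div_le_div_of_nonneg_right _ (by positivity)
        apply sum_le_sum
        intro h _
        rw [Pool.Agent.Q158.Pair.ncard_eq (fun n : ℤ => ∀ i j, F (pts d (u * n + s) h i) = F (pts d (u * n + s) h j)),
          card_filter]
        push_cast
        apply sum_le_sum
        intro n _
        split_ifs with c1 c2
        · exact le_rfl
        · exfalso
          apply c2
          intro i j
          rw [← hiter t (pts d (u * n + s) h i), (c1 i j).2 rfl, hiter]
        · norm_num
        · norm_num
      have h5 := h3.trans (sub_le_sub_right h4 _)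
      linarith
  · obtain ⟨t₀, h0⟩ := b2 ε hε
    refine ⟨t₀, fun t ht H hH => ?_⟩
    rw [flow_eq]
    exact h0 t ht H hH

end Pool.Agent.Results.MP_edb5be_nt.ShortIntervalFlow
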