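import Pool.Agent.Q74.AR.YagThm

set_option autoImplicit false

/-!
# Exact asymptotics for the meeting of two trajectories of the 3x+1 map, and the limit law of the pairs that have not met

`T x = x/2`, `(3x+1)/2` on the integers; `odds t x` is the number of odd terms among the first `t` terms of the
trajectory of `x`. For fixed `(a, b) ≠ (0, 0)` almost all `n` have `T^t n = T^t (3^a n + b)`, and the proportion of the
exceptions is of the order `1/√t` (MeetingRate). We find the exact asymptotics,

  `P(T^t n ≠ T^t (3^a n + b)) ~ (2/√π) c(a, b) / √t`,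

with the positive constant `c(a, b) = a + ∑ N_j / 2^j`, where `N_j` counts the `n < 2^j` such that at time `j` the
trajectories are at level `0` and have different parities. Here the level of the pair at time `t` is
`|a + odds t (3^a n + b) - odds t n|`: the larger of the two terms is about `3^level` times the smaller one.
Moreover we find the limit law of the level of the pairs that have not met (a theorem of Yaglom's type): the level
divided by `√t` has the Rayleigh law, `P(level ≥ x √t | not met) → exp (-x^2)`. All this holds in every interval of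
at least `t 2^t` integers, uniformly in its position. Consequently, for every set `S` with `T x ∈ S ↔ x ∈ S` (the
basin of an unknown cycle, or the set of the integers that reach no known cycle), the proportion of the `n` such
that exactly one of `n`, `3^a n + b` is in `S` is at most `((2/√π) c(a, b) + o(1)) / √(log₂ L)` in every interval of `L`
integers, uniformly in `S` and in the position of the interval.

Method. The level is a submartingale; its mean increases exactly when the level is `0` and the parities differ, and the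
total increase is `c(a, b) - a`. (1) For a pair at a level `a ≥ δ √t` the level killed at `0` is compared with the
simple random walk killed at `0` run at half speed: the time with different parities is `t/2 + o(t)` in mean square
(comparison of the chain of the pair with independent residues modulo `2^n`, by a Cauchy-Schwarz inequality
for the occupation times of the residue classes of the level). (2) At time `g² t`, `g` small, a pair that has not met has a
level of the order `g √t`, and the probability of (1) is nearly linear in the level at this scale, with a slope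
`(2/√π) exp (-x²) / √t`; so the answer is the slope times the mean of the level at that time, which tends to
`c(a, b)`. (3) The error terms are bounded by the third moment of the level, by the bound `C/√t` for the
probability not to have met (MeetingRate) and by the return times to level `0`.
-/

namespace Pool.Agent.Results.MP_edb5be_nt.YaglomLaw

/-- the 3x+1 map -/
def T (x : ℤ) : ℤ := if x % 2 = 0 then x / 2 else (3 * x + 1) / 2

/-- the number of odd terms among `x, T x, ..., T^(t-1) x` -/
def odds (t : ℕ) (x : ℤ) : ℕ := ((Finset.range t).filter (fun i => T^[i] x % 2 = 1)).card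

/-- the number of `n < 2^j` such that the pair of `n` and `3^a n + b` is at level `0` and has different
parities at time `j` -/
def N (a : ℕ) (b : ℤ) (j : ℕ) : ℕ :=
  ((Finset.range (2 ^ j)).filter (fun n : ℕ => odds j (n : ℤ) = a + odds j (3 ^ a * (n : ℤ) + b) ∧
    (T^[j] (n : ℤ) + T^[j] (3 ^ a * (n : ℤ) + b)) % 2 = 1)).card

/-- the constant `a + ∑ N_j / 2^j` -/
noncomputable def c (a : ℕ) (b : ℤ) : ℝ := a + ∑' j, (N a b j : ℝ) / 2 ^ j

/-- the number of `n` in `[M, M + L)` such that `n` and `3^a n + b` have not met at time `t` and their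
level at time `t` is at least `x √t` -/
noncomputable def apart (t a : ℕ) (b : ℤ) (x : ℝ) (M : ℤ) (L : ℕ) : ℕ :=
  {n : ℤ | M ≤ n ∧ n < M + L ∧ T^[t] n ≠ T^[t] (3 ^ a * n + b) ∧
    x * √(t : ℝ) ≤ |(a : ℝ) + odds t (3 ^ a * n + b) - odds t n|}.ncard

/-- (0) `apart` with `x = 0` counts the `n` with `T^t n ≠ T^t (3^a n + b)`.
(1) The series of `c a b` converges, and `c a b > 0` for `(a, b) ≠ (0, 0)`.
(2) `√t apart / L → (2/√π) exp (-x²) c a b` for all `x ≥ 0`, in all intervals of `L ≥ t 2^t` integers, uniformly in the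
interval.
(3) Hence the limit law of `level / √t` given that the pair has not met is the Rayleigh law.
(4) For all sets `S` invariant under `T`, the number of the `n` in an interval of `L` integers such that exactly
one of `n`, `3^a n + b` is in `S` is at most `((2/√π) c a b + ε) L / √(log₂ L)`, for `L ≥ L₀ (a, b, ε)`. -/
theorem result :
    (∀ (t a : ℕ) (b M : ℤ) (L : ℕ), apart t a b 0 M L =
      {n : ℤ | M ≤ n ∧ n < M + L ∧ T^[t] n ≠ T^[t] (3 ^ a * n + b)}.ncard) ∧
    (∀ (a : ℕ) (b : ℤ), Summable (fun j => (N a b j : ℝ) / 2 ^ j) ∧ ((a, b) ≠ (0, 0) → 0 < c a b)) ∧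
    (∀ (a : ℕ) (b : ℤ) (x ε : ℝ), 0 ≤ x → 0 < ε → ∃ t₀ : ℕ, ∀ t L : ℕ, t₀ ≤ t → t * 2 ^ t ≤ L → ∀ M : ℤ,
      |√(t : ℝ) * apart t a b x M L / L - 2 / √Real.pi * Real.exp (-x ^ 2) * c a b| ≤ ε) ∧
    (∀ (a : ℕ) (b : ℤ) (x ε : ℝ), (a, b) ≠ (0, 0) → 0 ≤ x → 0 < ε → ∃ t₀ : ℕ, ∀ t L : ℕ, t₀ ≤ t →
      t * 2 ^ t ≤ L → ∀ M : ℤ, |(apart t a b x M L : ℝ) / apart t a b 0 M L - Real.exp (-x ^ 2)| ≤ ε) ∧
    (∀ (a : ℕ) (b : ℤ) (ε : ℝ), 0 < ε → ∃ L₀ : ℕ, ∀ S : Set ℤ, (∀ x, T x ∈ S ↔ x ∈ S) →
      ∀ L : ℕ, L₀ ≤ L → ∀ M : ℤ,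
        √(Real.log L / Real.log 2) * {n : ℤ | M ≤ n ∧ n < M + L ∧ ¬ (n ∈ S ↔ 3 ^ a * n + b ∈ S)}.ncard / L ≤
          2 / √Real.pi * c a b + ε) := by
  have ho : ∀ (t : ℕ) (x : ℤ), odds t x = Pool.Agent.Q74.AR.oc t x := fun t x =>
    (Pool.Agent.Q74.AR.oc_eq t x).symm
  have hN : ∀ (a : ℕ) (b : ℤ) (j : ℕ), (N a b j : ℝ) / 2 ^ j =
      (Pool.Agent.Q158.Pair.av)^[j] Pool.Agent.Q158.Pair.zo (a, b) := by
    intro a b j
    rw [Pool.Agent.Q74.AR.zo_term]
    unfold N
    simp only [ho]
    rfl
  have hc : ∀ (a : ℕ) (b : ℤ), c a b = Pool.Agent.Q74.AR.cz (a, b) := by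
    intro a b
    unfold c Pool.Agent.Q74.AR.cz
    simp only [hN]
  have ha : ∀ (t a : ℕ) (b : ℤ) (x : ℝ) (M : ℤ) (L : ℕ), apart t a b x M L =
      Pool.Agent.Q74.AR.nlev t a b x M L := by
    intro t a b x M L
    unfold apart Pool.Agent.Q74.AR.nlev
    simp only [ho]
    rfl
  refine ⟨fun t a b M L => ?_, fun a b => ⟨?_, fun h => ?_⟩, fun a b x ε hx hε => ?_, fun a b x ε h hx hε => ?_,
    fun a b ε hε => ?_⟩
  · rw [ha, Pool.Agent.Q74.AR.nlev_zero]
    rfl
  · have h := Pool.Agent.Q74.AR.zo_summable (a, b)
    refine h.congr fun j => ?_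
    exact (hN a b j).symm
  · rw [hc]
    exact Pool.Agent.Q74.AR.cz_pos h
  · obtain ⟨t₀, _, h⟩ := Pool.Agent.Q74.AR.yag_count a b hx hε
    refine ⟨t₀, fun t L ht hL M => ?_⟩
    rw [ha, hc]
    exact h t L ht hL M
  · obtain ⟨t₀, _, h⟩ := Pool.Agent.Q74.AR.ray_count a b h hx hε
    refine ⟨t₀, fun t L ht hL M => ?_⟩
    rw [ha, ha]
    exact h t L ht hL M
  · obtain ⟨L₀, h⟩ := Pool.Agent.Q74.AR.inv_count a b hε
    refine ⟨L₀, fun S hS L hL M => ?_⟩
    rw [hc]
    exact h S hS L hL M

end Pool.Agent.Results.MP_edb5be_nt.YaglomLaw
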